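import Mathlib

/-!
# `κ`-complete filters on `κ` without the Galvin property, from `κ`-independent families

Let `κ` be a regular cardinal with `2 ^ {<κ} = κ`. There are `2 ^ κ` many subsets `A X` of `κ`
(`X ⊆ κ`) and a proper `κ`-complete filter `F` on `κ` such that the intersection of the sets `A X`
with `X ∈ I` is a member of `F` exactly if `I` has fewer than `κ` elements. So `Gal(F, κ, 2 ^ κ)`
fails in the strongest sense, and under GCH every regular uncountable cardinal `κ` carries a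
`κ`-complete filter without the Galvin property.

Proof. The sets `A X` form a `κ`-independent family (Hausdorff, Engelking-Karlowicz): the points of
the underlying set are pairs `(d, T)` of an ordinal `d < κ` and a set `T` of fewer than `κ` subsets
of `d`, and `(d, T)` belongs to `A X` if `X ∩ d` belongs to `T`. The filter is generated by the
intersections of fewer than `κ` of the sets `A X`.
-/

set_option autoImplicit false

namespace Pool.Agent.Results.MP_45cf3b_lc.IndependentFamilyFilter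

open Cardinal Set

universe u

/-- The generalized continuum hypothesis: `2 ^ μ = μ⁺` for all infinite cardinals `μ`. -/
def GCH : Prop := ∀ μ : Cardinal.{u}, ℵ₀ ≤ μ → (2 : Cardinal.{u}) ^ μ = Order.succ μ

/-- The filter `F` on (the well-ordered set of type) `κ` is `κ`-complete: the intersection of fewer
than `κ` members of `F` is a member of `F`. -/
def Complete (κ : Cardinal.{u}) (F : Filter κ.ord.ToType) : Prop :=
  ∀ S : Set (Set κ.ord.ToType), #S < κ → (∀ s ∈ S, s ∈ F) → ⋂₀ S ∈ F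

/-- The filter `F` on `κ` has the Galvin property: for every sequence of `κ⁺` members of `F` there
is a set of `κ` many indices such that the intersection of the members with these indices is a
member of `F`. -/
def Galvin (κ : Cardinal.{u}) (F : Filter κ.ord.ToType) : Prop :=
  ∀ A : (Order.succ κ).ord.ToType → Set κ.ord.ToType, (∀ i, A i ∈ F) →
    ∃ I : Set (Order.succ κ).ord.ToType, #I = κ ∧ ⋂ i ∈ I, A i ∈ F

section aux

variable {κ : Cardinal.{u}}

theorem bdd (hκ : κ.IsRegular) {ι : Type u} (f : ι → κ.ord.ToType) (hι : #ι < κ) :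
    ∃ b, ∀ i, f i ≤ b := by
  by_contra hcon
  push Not at hcon
  have h1 : IsCofinal (range f) := fun b => by
    obtain ⟨i, hi⟩ := hcon b
    exact ⟨f i, ⟨i, rfl⟩, hi.le⟩
  have h2 := Order.cof_le h1
  rw [Ordinal.cof_toType, hκ.cof_ord] at h2
  exact absurd (h2.trans mk_range_le) (not_le.2 hι)

theorem mk_Iic_lt' (hκ : κ.IsRegular) (a : κ.ord.ToType) : #(Iic a) < κ := by
  simpa using mk_Iic_lt a (by simp) (by simpa using hκ.aleph0_le)

/-- The points: an ordinal `d`, a bound `b` and a set of ordinals up to `b` (codes of subsets of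
`d`). -/
abbrev Pt (κ : Cardinal.{u}) : Type u := Σ p : κ.ord.ToType × κ.ord.ToType, Set (Iic p.2)

theorem mk_Pt (hκ : κ.IsRegular) (h2 : ∀ c < κ, (2 : Cardinal.{u}) ^ c ≤ κ) : #(Pt κ) ≤ κ := by
  rw [mk_sigma]
  refine (sum_le_sum _ (fun _ => κ) fun p => ?_).trans ?_
  · rw [mk_set]
    exact h2 _ (mk_Iic_lt' hκ p.2)
  · rw [sum_const, lift_id, lift_id, mk_prod, lift_id, Cardinal.mk_toType, card_ord,
      mul_eq_self hκ.aleph0_le, mul_eq_self hκ.aleph0_le]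

/-- `(d, b, T)` belongs to the set of `X` if the code of `X ∩ [0, d]` belongs to `T`. -/
def Fam (e : ∀ d : κ.ord.ToType, Set (Iic d) ↪ κ.ord.ToType) (X : Set κ.ord.ToType) :
    Set (Pt κ) :=
  {p | ∃ h : e p.1.1 {y | y.1 ∈ X} ≤ p.1.2, (⟨e p.1.1 {y | y.1 ∈ X}, h⟩ : Iic p.1.2) ∈ p.2}

/-- Independence, in the form needed here. -/
theorem indep (hκ : κ.IsRegular) (e : ∀ d : κ.ord.ToType, Set (Iic d) ↪ κ.ord.ToType)
    (𝓧 : Set (Set κ.ord.ToType)) (h𝓧 : #𝓧 < κ) (Y : Set κ.ord.ToType) (hY : Y ∉ 𝓧) :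
    ∃ p : Pt κ, (∀ X ∈ 𝓧, p ∈ Fam e X) ∧ p ∉ Fam e Y := by
  classical
  have h1 : ∀ X : 𝓧, ∃ b : κ.ord.ToType, ¬ (b ∈ X.1 ↔ b ∈ Y) := by
    rintro ⟨X, hX⟩
    by_contra hcon
    push Not at hcon
    exact hY ((Set.ext hcon : X = Y) ▸ hX)
  choose s hs using h1
  obtain ⟨d, hd⟩ := bdd hκ s h𝓧
  obtain ⟨b, hb⟩ := bdd hκ (fun X : 𝓧 => e d {y | y.1 ∈ X.1}) h𝓧
  refine ⟨⟨(d, b), {z | ∃ X : 𝓧, e d {y | y.1 ∈ X.1} = z.1}⟩, fun X hX => ?_, ?_⟩
  · exact ⟨hb ⟨X, hX⟩, ⟨X, hX⟩, rfl⟩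
  · rintro ⟨_, X, hX⟩
    have h2 := (e d).injective hX
    have h3 : (⟨s X, hd X⟩ : Iic d) ∈ {y : Iic d | y.1 ∈ X.1} ↔
        (⟨s X, hd X⟩ : Iic d) ∈ {y : Iic d | y.1 ∈ Y} := by rw [h2]
    exact hs X h3

end aux

/-- The main construction. -/
theorem main (κ : Cardinal.{u}) (hκ : κ.IsRegular) (h2 : ∀ c < κ, (2 : Cardinal.{u}) ^ c ≤ κ) :
    ∃ (F : Filter κ.ord.ToType) (A : Set κ.ord.ToType → Set κ.ord.ToType),
      F.NeBot ∧ Complete κ F ∧
        ∀ I : Set (Set κ.ord.ToType), ⋂ X ∈ I, A X ∈ F ↔ #I < κ := by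
  classical
  have h3 : ∀ d : κ.ord.ToType, #(Set (Iic d)) ≤ #(κ.ord.ToType) := by
    intro d
    rw [mk_set, Cardinal.mk_toType, card_ord]
    exact h2 _ (mk_Iic_lt' hκ d)
  have e : ∀ d : κ.ord.ToType, Set (Iic d) ↪ κ.ord.ToType := fun d =>
    Classical.choice ((Cardinal.le_def _ _).1 (h3 d))
  obtain ⟨g⟩ : #(Pt κ) ≤ #(κ.ord.ToType) := by
    rw [Cardinal.mk_toType, card_ord]
    exact mk_Pt hκ h2
  let A : Set κ.ord.ToType → Set κ.ord.ToType := fun X => g '' Fam e X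
  have key : ∀ 𝓧 : Set (Set κ.ord.ToType), #𝓧 < κ → ∀ Y, Y ∉ 𝓧 →
      ∃ a, (∀ X ∈ 𝓧, a ∈ A X) ∧ a ∉ A Y := by
    intro 𝓧 h𝓧 Y hY
    obtain ⟨p, hp, hp2⟩ := indep hκ e 𝓧 h𝓧 Y hY
    refine ⟨g p, fun X hX => ⟨p, hp X hX, rfl⟩, ?_⟩
    rintro ⟨q, hq, hqp⟩
    rw [g.injective hqp] at hq
    exact hp2 hq
  let F : Filter κ.ord.ToType :=
    { sets := {B | ∃ 𝓧 : Set (Set κ.ord.ToType), #𝓧 < κ ∧ ⋂ X ∈ 𝓧, A X ⊆ B}
      univ_sets := ⟨∅, by simpa using hκ.pos, subset_univ _⟩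
      sets_of_superset := fun ⟨𝓧, h, h'⟩ hBC => ⟨𝓧, h, h'.trans hBC⟩
      inter_sets := by
        rintro B C ⟨𝓧, h, h'⟩ ⟨𝓨, k, k'⟩
        refine ⟨𝓧 ∪ 𝓨, (mk_union_le _ _).trans_lt (add_lt_of_lt hκ.aleph0_le h k), ?_⟩
        rw [biInter_union]
        exact inter_subset_inter h' k' }
  have memF : ∀ B, B ∈ F ↔ ∃ 𝓧 : Set (Set κ.ord.ToType), #𝓧 < κ ∧ ⋂ X ∈ 𝓧, A X ⊆ B :=
    fun B => Iff.rfl
  refine ⟨F, A, ?_, ?_, ?_⟩
  · rw [Filter.neBot_iff]
    intro hbot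
    have h0 : (∅ : Set κ.ord.ToType) ∈ F := by rw [hbot]; trivial
    obtain ⟨𝓧, h𝓧, hsub⟩ := (memF _).1 h0
    have hY : ∃ Y, Y ∉ 𝓧 := by
      by_contra hcon
      push Not at hcon
      have h4 : 𝓧 = Set.univ := eq_univ_of_forall hcon
      rw [h4, mk_univ, mk_set, Cardinal.mk_toType, card_ord] at h𝓧
      exact absurd (cantor κ) (not_lt.2 h𝓧.le)
    obtain ⟨Y, hY⟩ := hY
    obtain ⟨a, ha, -⟩ := key 𝓧 h𝓧 Y hY
    exact hsub (mem_iInter₂.2 ha)
  · intro S hS hSF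
    choose! J hJ hJ2 using fun s (hs : s ∈ S) => (memF _).1 (hSF s hs)
    refine (memF _).2 ⟨⋃ s : S, J s.1, ?_, ?_⟩
    · exact (card_iUnion_lt_iff_forall_of_isRegular hκ hS).2 (fun s => hJ s.1 s.2)
    · intro a ha s hs
      refine hJ2 s hs (mem_iInter₂.2 fun X hX => ?_)
      exact mem_iInter₂.1 ha X (mem_iUnion.2 ⟨⟨s, hs⟩, hX⟩)
  · intro I
    constructor
    · intro hI
      obtain ⟨𝓧, h𝓧, hsub⟩ := (memF _).1 hI
      refine lt_of_le_of_lt (mk_le_mk_of_subset fun Y hY => ?_) h𝓧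
      by_contra hcon
      obtain ⟨a, ha, ha2⟩ := key 𝓧 h𝓧 Y hcon
      exact ha2 (mem_iInter₂.1 (hsub (mem_iInter₂.2 ha)) Y hY)
    · intro hI
      exact (memF _).2 ⟨I, hI, subset_rfl⟩

/-- (1) If `κ` is regular and `2 ^ c ≤ κ` for all `c < κ`, then there are a proper `κ`-complete
filter `F` on `κ` and sets `A X` (`X ⊆ κ`) such that, for every set `I` of subsets of `κ`, the
intersection of the sets `A X`, `X ∈ I`, is a member of `F` if and only if `I` has fewer than `κ`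
elements.
(2) Under GCH every regular uncountable cardinal `κ` carries a proper `κ`-complete filter without
the Galvin property. -/
theorem result :
    (∀ κ : Cardinal.{u}, κ.IsRegular → (∀ c < κ, (2 : Cardinal.{u}) ^ c ≤ κ) →
      ∃ (F : Filter κ.ord.ToType) (A : Set κ.ord.ToType → Set κ.ord.ToType),
        F.NeBot ∧ Complete κ F ∧
          ∀ I : Set (Set κ.ord.ToType), ⋂ X ∈ I, A X ∈ F ↔ #I < κ) ∧
    (GCH.{u} → ∀ κ : Cardinal.{u}, κ.IsRegular → ℵ₀ < κ →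
      ∃ F : Filter κ.ord.ToType, F.NeBot ∧ Complete κ F ∧ ¬ Galvin κ F) := by
  refine ⟨main, fun hG κ hκ hω => ?_⟩
  have h2 : ∀ c < κ, (2 : Cardinal.{u}) ^ c ≤ κ := by
    intro c hc
    rcases lt_or_ge c ℵ₀ with h | h
    · exact (power_lt_aleph0 (natCast_lt_aleph0 (n := 2)) h).le.trans hω.le
    · rw [hG c h]
      exact Order.succ_le_of_lt hc
  obtain ⟨F, A, h3, h4, h5⟩ := main κ hκ h2
  refine ⟨F, h3, h4, fun hGal => ?_⟩
  have h6 : #(Order.succ κ).ord.ToType ≤ #(Set κ.ord.ToType) := by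
    rw [mk_set, Cardinal.mk_toType, Cardinal.mk_toType, card_ord, card_ord, hG κ hω.le]
  obtain ⟨i⟩ := h6
  have hmem : ∀ X, A X ∈ F := by
    intro X
    have h7 := (h5 {X}).2 (by simpa using one_lt_aleph0.trans hω)
    simpa using h7
  obtain ⟨I, hI, hI2⟩ := hGal (fun a => A (i a)) (fun a => hmem _)
  have h8 : ⋂ X ∈ i '' I, A X ∈ F := by
    rw [biInter_image]
    exact hI2
  have h9 := (h5 _).1 h8
  rw [mk_image_eq i.injective, hI] at h9
  exact lt_irrefl _ h9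

end Pool.Agent.Results.MP_45cf3b_lc.IndependentFamilyFilter
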